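import Pool.Agent.H31.UC.Main

/-!
# Points on few lines (MP_31a0d1_lc)
-/

set_option autoImplicit false

namespace Pool.Agent.H31.UC

open Finset Pool.Agent.H90.UD

/-- All points of `P` are on the `k` lines `a x + b y = c`. -/
def OnLines (k : ℕ) (P : Finset Plane) : Prop :=
  ∃ a b c : Fin k → ℝ, (∀ i, a i ^ 2 + b i ^ 2 = 1) ∧ ∀ p ∈ P, ∃ i, a i * p 0 + b i * p 1 = c i

/-- All pairs of distinct points of `P` are covered by blocks `A i × B i`, on each of which `dist < 1`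
is a conjunction of `t i` comparisons, with `∑ t i * (|A i| + |B i|) ≤ s`. -/
def Covers (P : Finset Plane) (s : ℕ) : Prop :=
  ∃ (m : ℕ) (t : Fin m → ℕ) (A B : Fin m → Finset Plane), (∀ i, Conj (t i) (A i) (B i)) ∧
    (∀ p ∈ P, ∀ q ∈ P, p ≠ q → ∃ i, (p ∈ A i ∧ q ∈ B i) ∨ (q ∈ A i ∧ p ∈ B i)) ∧
    ∑ i, t i * ((A i).card + (B i).card) ≤ s

theorem dist_sq' (p q : Plane) : dist p q ^ 2 = (p 0 - q 0) ^ 2 + (p 1 - q 1) ^ 2 := by
  rw [EuclideanSpace.dist_eq, Real.sq_sqrt (by positivity)]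
  simp [Fin.sum_univ_two, Real.dist_eq, sq_abs]

theorem conj_line (A B : Finset Plane) (a b c : ℝ) (hab : a ^ 2 + b ^ 2 = 1)
    (hB : ∀ q ∈ B, a * q 0 + b * q 1 = c) : Conj 2 A B := by
  refine ⟨![fun p => (-b * p 0 + a * p 1) - √(1 - (a * p 0 + b * p 1 - c) ^ 2),
    fun p => -((-b * p 0 + a * p 1) + √(1 - (a * p 0 + b * p 1 - c) ^ 2))],
    ![fun q => -b * q 0 + a * q 1, fun q => -(-b * q 0 + a * q 1)], ?_⟩
  intro p _ q hq
  have h1 : dist p q < 1 ↔ dist p q ^ 2 < 1 := by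
    constructor
    · intro h
      have := dist_nonneg (x := p) (y := q)
      nlinarith
    · exact lt_one_of_sq dist_nonneg
  have h2 : dist p q ^ 2 = (a * p 0 + b * p 1 - c) ^ 2 +
      ((-b * p 0 + a * p 1) - (-b * q 0 + a * q 1)) ^ 2 := by
    rw [dist_sq', ← hB q hq]
    have e : ((p 0 - q 0) ^ 2 + (p 1 - q 1) ^ 2) = (a ^ 2 + b ^ 2) *
      ((p 0 - q 0) ^ 2 + (p 1 - q 1) ^ 2) := by rw [hab, one_mul]
    rw [e]
    ring
  have h3 : dist p q < 1 ↔ |(-b * p 0 + a * p 1) - (-b * q 0 + a * q 1)| <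
      √(1 - (a * p 0 + b * p 1 - c) ^ 2) := by
    rw [h1, h2, Real.lt_sqrt (abs_nonneg _), sq_abs]
    constructor <;> intro h <;> linarith
  rw [h3, abs_lt, Fin.forall_fin_two]
  simp only [Matrix.cons_val_zero, Matrix.cons_val_one]
  constructor
  · rintro ⟨h4, h5⟩
    constructor <;> linarith
  · rintro ⟨h4, h5⟩
    constructor <;> linarith

/-- the upper bound -/
theorem few_upper (k : ℕ) (P : Finset Plane) (h : OnLines k P) : Covers P (4 * (k * P.card)) := by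
  classical
  obtain ⟨a, b, c, hab, hP⟩ := h
  refine ⟨k, fun _ => 2, fun _ => P, fun i => P.filter (fun q => a i * q 0 + b i * q 1 = c i),
    ?_, ?_, ?_⟩
  · intro i
    exact conj_line _ _ (a i) (b i) (c i) (hab i) fun q hq => (mem_filter.1 hq).2
  · intro p hp q hq _
    obtain ⟨i, hi⟩ := hP q hq
    exact ⟨i, Or.inl ⟨hp, mem_filter.2 ⟨hq, hi⟩⟩⟩
  · calc ∑ i : Fin k, 2 * (P.card + (P.filter (fun q => a i * q 0 + b i * q 1 = c i)).card)
        ≤ ∑ i : Fin k, 2 * (P.card + P.card) := sum_le_sum fun i _ =>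
          Nat.mul_le_mul_left _ (Nat.add_le_add_left (card_le_card (filter_subset _ _)) _)
      _ = 4 * (k * P.card) := by
          rw [sum_const, card_univ, Fintype.card_fin, smul_eq_mul]
          ring

/-- the shift -/
noncomputable def sh (c : ℕ) : Plane := !₂[0, 10 * (c : ℝ)]

theorem sh0 (c : ℕ) (x : Plane) : (x + sh c) 0 = x 0 := by
  simp [sh]

theorem sh1 (c : ℕ) (x : Plane) : (x + sh c) 1 = x 1 + 10 * (c : ℝ) := by
  simp [sh]

theorem win {k : ℕ} {x : Plane} (hx : x ∈ pset k 0) : -2 ≤ x 1 ∧ x 1 ≤ 2 ∧ x 0 ≤ 1 ∧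
    ∃ i : Fin k, x 0 = dl k * (i : ℕ) := by
  rcases mem_pset.1 hx with (⟨p, hp, rfl⟩ | ⟨p, hp, rfl⟩) | ⟨j, hj, _⟩
  · obtain ⟨hk, a1, a2, a3, a4⟩ := mem_pts hp
    have h2 := dl_pos hk
    have h3 := dl_mul hk
    have hk1 : (1 : ℝ) ≤ k := by exact_mod_cast hk
    have hk2 : (1 : ℝ) ≤ (k : ℝ) ^ 2 := by nlinarith
    have hd := dl_k hk
    have h5 : dl k ≤ 1 / 3 := by nlinarith
    have c1 : (p.1 : ℝ) ^ 2 ≤ (k : ℝ) ^ 2 := by nlinarith
    have c3 : 0 ≤ (p.1 : ℝ) ^ 2 := by positivity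
    have e1 : dl k * ((p.2 : ℝ) - (p.1 : ℝ) ^ 2 / 2) ≤ 1 := by
      calc _ ≤ dl k * (3 * (k : ℝ) ^ 2) := mul_le_mul_of_nonneg_left (by linarith) h2.le
        _ = 1 := h3
    have e2 : -1 ≤ dl k * ((p.2 : ℝ) - (p.1 : ℝ) ^ 2 / 2) := by
      calc -1 = dl k * (-(3 * (k : ℝ) ^ 2)) := by rw [mul_neg, h3]
        _ ≤ _ := mul_le_mul_of_nonneg_left (by linarith) h2.le
    have e3 : ep k p 1 = dl k * (dl k * ((p.2 : ℝ) - (p.1 : ℝ) ^ 2 / 2)) := by
      simp only [ep, PiLp.toLp_apply, Matrix.cons_val_one, Matrix.cons_val_zero]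
      ring
    refine ⟨?_, ?_, ep_fst hp, ⟨p.1, mem_range.1 (mem_product.1 hp).1⟩, ?_⟩
    · rw [e3]; nlinarith
    · rw [e3]; nlinarith
    · simp only [ep, PiLp.toLp_apply, Matrix.cons_val_zero]
  · obtain ⟨hk, a1, a2, a3, a4⟩ := mem_lns hp
    have h2 := dl_pos hk
    have h3 := dl_mul hk
    have hk1 : (1 : ℝ) ≤ k := by exact_mod_cast hk
    have hk2 : (1 : ℝ) ≤ (k : ℝ) ^ 2 := by nlinarith
    have hd := dl_k hk
    have h5 : dl k ≤ 1 / 3 := by nlinarith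
    have c1 : (p.1 : ℝ) ^ 2 ≤ (k : ℝ) ^ 2 := by nlinarith
    have c3 : 0 ≤ (p.1 : ℝ) ^ 2 := by positivity
    have e1 : dl k * ((p.2 : ℝ) + (p.1 : ℝ) ^ 2 / 2 - 1 / 4) ≤ 1 := by
      calc _ ≤ dl k * (3 * (k : ℝ) ^ 2) := mul_le_mul_of_nonneg_left (by linarith) h2.le
        _ = 1 := h3
    have e2 : -1 ≤ dl k * ((p.2 : ℝ) + (p.1 : ℝ) ^ 2 / 2 - 1 / 4) := by
      calc -1 = dl k * (-(3 * (k : ℝ) ^ 2)) := by rw [mul_neg, h3]
        _ ≤ _ := mul_le_mul_of_nonneg_left (by linarith) h2.le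
    have e3 : el k p 1 = -1 + dl k * (dl k * ((p.2 : ℝ) + (p.1 : ℝ) ^ 2 / 2 - 1 / 4)) := by
      simp only [el, PiLp.toLp_apply, Matrix.cons_val_one, Matrix.cons_val_zero]
      ring
    refine ⟨?_, ?_, el_fst hp, ⟨p.1, mem_range.1 (mem_product.1 hp).1⟩, ?_⟩
    · rw [e3]; nlinarith
    · rw [e3]; nlinarith
    · simp only [el, PiLp.toLp_apply, Matrix.cons_val_zero]
  · omega

/-- the configuration: `N` copies and `e` far points -/
noncomputable def pcop (k N e : ℕ) : Finset Plane := by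
  classical exact ((range N ×ˢ pset k 0).image (fun z => z.2 + sh z.1)) ∪ (range e).image ex

theorem mem_pcop {k N e : ℕ} {x : Plane} :
    x ∈ pcop k N e ↔ (∃ c < N, ∃ y ∈ pset k 0, y + sh c = x) ∨ ∃ j < e, ex j = x := by
  classical
  unfold pcop
  rw [mem_union, mem_image, mem_image]
  constructor
  · rintro (⟨⟨c, y⟩, h1, h2⟩ | ⟨j, h1, h2⟩)
    · obtain ⟨h3, h4⟩ := mem_product.1 h1
      exact Or.inl ⟨c, mem_range.1 h3, y, h4, h2⟩
    · exact Or.inr ⟨j, mem_range.1 h1, h2⟩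
  · rintro (⟨c, h1, y, h2, h3⟩ | ⟨j, h1, h2⟩)
    · exact Or.inl ⟨(c, y), mem_product.2 ⟨mem_range.2 h1, h2⟩, h3⟩
    · exact Or.inr ⟨j, mem_range.2 h1, h2⟩

theorem cop_inj {k c c' : ℕ} {y y' : Plane} (hy : y ∈ pset k 0) (hy' : y' ∈ pset k 0)
    (h : y + sh c = y' + sh c') : c = c' ∧ y = y' := by
  have h1 : (y + sh c) 1 = (y' + sh c') 1 := by rw [h]
  rw [sh1, sh1] at h1
  obtain ⟨a1, a2, _⟩ := win hy
  obtain ⟨b1, b2, _⟩ := win hy'
  have hc : c = c' := by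
    have h2 : (10 : ℝ) * ((c : ℝ) - c') < 10 := by linarith
    have h3 : (-10 : ℝ) < 10 * ((c : ℝ) - c') := by linarith
    have h4 : ((c : ℤ) : ℝ) - (c' : ℤ) < 1 := by push_cast; linarith
    have h5 : (-1 : ℝ) < ((c : ℤ) : ℝ) - (c' : ℤ) := by push_cast; linarith
    have h6 : (c : ℤ) - c' < 1 := by exact_mod_cast h4
    have h7 : -1 < (c : ℤ) - c' := by exact_mod_cast h5
    omega
  subst hc
  exact ⟨rfl, add_right_cancel h⟩

theorem pcop_card {k N e : ℕ} (hk : 0 < k) : (pcop k N e).card = N * (3 * k ^ 3) + e := by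
  classical
  unfold pcop
  rw [card_union_of_disjoint, card_image_of_injOn, card_product, card_range,
    card_image_of_injective _ ex_inj, card_range, pset_card 0 hk]
  · ring
  · rintro ⟨c, y⟩ h1 ⟨c', y'⟩ h2 h3
    obtain ⟨_, h4⟩ := mem_product.1 (mem_coe.1 h1)
    obtain ⟨_, h5⟩ := mem_product.1 (mem_coe.1 h2)
    obtain ⟨h6, h7⟩ := cop_inj h4 h5 h3
    exact Prod.ext h6 h7
  · rw [disjoint_left]
    intro x h1 h2
    obtain ⟨⟨c, y⟩, h3, h4⟩ := mem_image.1 h1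
    obtain ⟨j, _, h5⟩ := mem_image.1 h2
    obtain ⟨_, h6⟩ := mem_product.1 h3
    have h7 : x 0 ≤ 1 := by
      rw [← h4, sh0]
      exact (win h6).2.2.1
    have h8 := far_of_fst x j h7
    rw [h5, dist_self] at h8
    linarith

theorem pcop_unit (k N e : ℕ) : ∀ p ∈ pcop k N e, ∀ q ∈ pcop k N e, dist p q ≠ 1 := by
  intro x hx y hy
  rcases mem_pcop.1 hx with ⟨c, _, p, hp, rfl⟩ | ⟨i, _, rfl⟩
  · rcases mem_pcop.1 hy with ⟨c', _, q, hq, rfl⟩ | ⟨j, _, rfl⟩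
    · by_cases hc : c = c'
      · subst hc
        rw [dist_add_right]
        exact no_unit k 0 p hp q hq
      · intro h
        have h1 : dist (p + sh c) (q + sh c') ^ 2 = _ := dist_sq' _ _
        rw [h, sh1, sh1] at h1
        obtain ⟨a1, a2, _⟩ := win hp
        obtain ⟨b1, b2, _⟩ := win hq
        have h2 : (p 1 + 10 * (c : ℝ) - (q 1 + 10 * (c' : ℝ))) ^ 2 ≤ 1 := by
          have : 0 ≤ ((p + sh c) 0 - (q + sh c') 0) ^ 2 := sq_nonneg _
          linarith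
        have h3 : |p 1 + 10 * (c : ℝ) - (q 1 + 10 * (c' : ℝ))| ≤ 1 := by
          rw [← sq_le_one_iff_abs_le_one]
          exact h2
        obtain ⟨h4, h5⟩ := abs_le.1 h3
        have h6 : ((c : ℤ) : ℝ) - (c' : ℤ) < 1 := by push_cast; linarith
        have h7 : (-1 : ℝ) < ((c : ℤ) : ℝ) - (c' : ℤ) := by push_cast; linarith
        have h8 : (c : ℤ) - c' < 1 := by exact_mod_cast h6
        have h9 : -1 < (c : ℤ) - c' := by exact_mod_cast h7
        omega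
    · refine (far_of_fst _ j ?_).ne'
      rw [sh0]
      exact (win hp).2.2.1
  · rcases mem_pcop.1 hy with ⟨c', _, q, hq, rfl⟩ | ⟨j, _, rfl⟩
    · rw [dist_comm]
      refine (far_of_fst _ i ?_).ne'
      rw [sh0]
      exact (win hq).2.2.1
    · exact ex_ex i j

theorem pcop_lines (k N e : ℕ) : OnLines (k + 1) (pcop k N e) := by
  refine ⟨Fin.snoc (fun _ : Fin k => (1 : ℝ)) 0, Fin.snoc (fun _ : Fin k => (0 : ℝ)) 1,
    Fin.snoc (fun i : Fin k => dl k * ((i : ℕ) : ℝ)) 0, ?_, ?_⟩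
  · intro i
    refine Fin.lastCases ?_ (fun j => ?_) i
    · simp
    · simp
  · intro x hx
    rcases mem_pcop.1 hx with ⟨c, _, p, hp, rfl⟩ | ⟨j, _, rfl⟩
    · obtain ⟨_, _, _, i, hi⟩ := win hp
      refine ⟨Fin.castSucc i, ?_⟩
      simp only [Fin.snoc_castSucc]
      rw [sh0, hi]
      ring
    · refine ⟨Fin.last k, ?_⟩
      simp only [Fin.snoc_last]
      simp [ex]

theorem copies {k N e m : ℕ} (hk : 0 < k) (t : Fin m → ℕ) (A B : Fin m → Finset Plane)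
    (hE : ∀ i, Conj (t i) (A i) (B i))
    (hc : ∀ p ∈ pcop k N e, ∀ q ∈ pcop k N e, p ≠ q →
      ∃ i, (p ∈ A i ∧ q ∈ B i) ∨ (q ∈ A i ∧ p ∈ B i)) :
    N * k ^ 4 ≤ 2 * ∑ i, t i * ((A i).card + (B i).card) := by
  classical
  have hcop : ∀ c ∈ range N, k ^ 4 ≤ 2 * ∑ i, t i *
      (((pset k 0).filter (fun x => x + sh c ∈ A i)).card +
        ((pset k 0).filter (fun x => x + sh c ∈ B i)).card) := by
    intro c hcN
    refine countC (e := 0) hk t (fun i => (pset k 0).filter (fun x => x + sh c ∈ A i))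
      (fun i => (pset k 0).filter (fun x => x + sh c ∈ B i)) ?_ ?_
    · intro i
      obtain ⟨f, g, hfg⟩ := hE i
      refine ⟨fun j x => f j (x + sh c), fun j x => g j (x + sh c), ?_⟩
      intro a ha b hb
      have := hfg _ (mem_filter.1 ha).2 _ (mem_filter.1 hb).2
      rwa [dist_add_right] at this
    · intro p hp q hq hpq
      obtain ⟨i, hi⟩ := hc (p + sh c) (mem_pcop.2 (Or.inl ⟨c, mem_range.1 hcN, p, hp, rfl⟩))
        (q + sh c) (mem_pcop.2 (Or.inl ⟨c, mem_range.1 hcN, q, hq, rfl⟩))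
        (fun h => hpq (add_right_cancel h))
      refine ⟨i, ?_⟩
      rcases hi with ⟨h1, h2⟩ | ⟨h1, h2⟩
      · exact Or.inl ⟨mem_filter.2 ⟨hp, h1⟩, mem_filter.2 ⟨hq, h2⟩⟩
      · exact Or.inr ⟨mem_filter.2 ⟨hq, h1⟩, mem_filter.2 ⟨hp, h2⟩⟩
  have hsum : ∀ X : Finset Plane, ∑ c ∈ range N, ((pset k 0).filter (fun x => x + sh c ∈ X)).card ≤
      X.card := by
    intro X
    have h1 : ∀ c ∈ range N, ((pset k 0).filter (fun x => x + sh c ∈ X)).card =
        (((pset k 0).filter (fun x => x + sh c ∈ X)).image (fun x => x + sh c)).card := by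
      intro c _
      rw [card_image_of_injective _ (add_left_injective (sh c))]
    rw [sum_congr rfl h1, ← card_biUnion]
    · refine card_le_card ?_
      intro x hx
      obtain ⟨c, _, h2⟩ := mem_biUnion.1 hx
      obtain ⟨y, h3, rfl⟩ := mem_image.1 h2
      exact (mem_filter.1 h3).2
    · intro c _ c' _ hcc
      simp only [Function.onFun]
      rw [disjoint_left]
      intro x h2 h3
      obtain ⟨y, h4, h5⟩ := mem_image.1 h2
      obtain ⟨y', h6, h7⟩ := mem_image.1 h3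
      exact hcc (cop_inj (mem_filter.1 h4).1 (mem_filter.1 h6).1 (h5.trans h7.symm)).1
  calc N * k ^ 4 = ∑ c ∈ range N, k ^ 4 := by rw [sum_const, card_range, smul_eq_mul]
    _ ≤ ∑ c ∈ range N, 2 * ∑ i, t i *
      (((pset k 0).filter (fun x => x + sh c ∈ A i)).card +
        ((pset k 0).filter (fun x => x + sh c ∈ B i)).card) := sum_le_sum hcop
    _ = 2 * ∑ i, t i * ((∑ c ∈ range N, ((pset k 0).filter (fun x => x + sh c ∈ A i)).card) +
        ∑ c ∈ range N, ((pset k 0).filter (fun x => x + sh c ∈ B i)).card) := by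
        rw [← mul_sum, sum_comm]
        congr 1
        refine sum_congr rfl fun i _ => ?_
        rw [← mul_sum, sum_add_distrib]
    _ ≤ 2 * ∑ i, t i * ((A i).card + (B i).card) :=
        Nat.mul_le_mul_left _ (sum_le_sum fun i _ =>
          Nat.mul_le_mul_left _ (Nat.add_le_add (hsum _) (hsum _)))

/-- the lower bound -/
theorem few_lower (k n : ℕ) (hk : 1 ≤ k) (hn : 3 * k ^ 3 ≤ n) : ∃ P : Finset Plane, P.card = n ∧
    OnLines (k + 1) P ∧ (∀ p ∈ P, ∀ q ∈ P, dist p q ≠ 1) ∧ ∀ s, Covers P s → k * n ≤ 12 * s := by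
  have hk3 : 0 < 3 * k ^ 3 := by positivity
  obtain ⟨N, hN⟩ : ∃ N : ℕ, N = n / (3 * k ^ 3) := ⟨_, rfl⟩
  have h1 : N * (3 * k ^ 3) ≤ n := by rw [hN]; exact Nat.div_mul_le_self _ _
  have h2 : n < (N + 1) * (3 * k ^ 3) := by
    rw [hN, mul_comm]
    exact Nat.lt_mul_div_succ n hk3
  have h3 : 1 ≤ N := by
    rw [hN]
    exact (Nat.le_div_iff_mul_le hk3).2 (by omega)
  refine ⟨pcop k N (n - N * (3 * k ^ 3)), ?_, pcop_lines _ _ _, pcop_unit _ _ _, ?_⟩
  · rw [pcop_card (by omega)]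
    omega
  · rintro s ⟨m, t, A, B, hE, hc, hs⟩
    have h4 := copies (by omega) t A B hE hc
    have h5 : n ≤ 2 * N * (3 * k ^ 3) := by nlinarith
    calc k * n ≤ k * (2 * N * (3 * k ^ 3)) := Nat.mul_le_mul_left _ h5
      _ = 6 * (N * k ^ 4) := by ring
      _ ≤ 6 * (2 * ∑ i, t i * ((A i).card + (B i).card)) := Nat.mul_le_mul_left _ h4
      _ ≤ 6 * (2 * s) := Nat.mul_le_mul_left _ (Nat.mul_le_mul_left _ hs)
      _ = 12 * s := by ring

end Pool.Agent.H31.UC
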