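import Pool.Agent.H90.UD.Count

/-!
# Blocks on which the close pairs are given by a conjunction of comparisons (MP_31a0d1_lc)

The configuration and its geometry are those of `Pool.Agent.H90.UD` (helper90). New: a block `A × B` on
which `dist < 1` is equivalent to a conjunction of `t` comparisons contains at most
`t (|A| + 2 |B|)` of the critical pairs, without any logarithm and for every `t`.
-/

set_option autoImplicit false

namespace Pool.Agent.H31.UC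

open Finset Pool.Agent.H90.UD

/-- incidences which violate one comparison that holds for all points strictly below lines -/
theorem conj_one (A B : Finset (ℕ × ℕ)) (f g : ℕ × ℕ → ℝ)
    (h : ∀ p ∈ A, ∀ l ∈ B, ¬ Ab p l → f p < g l) (E : Finset ((ℕ × ℕ) × (ℕ × ℕ)))
    (hE : ∀ z ∈ E, z.1 ∈ A ∧ z.2 ∈ B ∧ Inc z.1 z.2 ∧ ¬ f z.1 < g z.2) :
    E.card ≤ A.card + 2 * B.card := by
  classical
  have hsame : ∀ p p' l : ℕ × ℕ, Inc p l → Inc p' l → p.1 = p'.1 → p = p' := by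
    intro p p' l h1 h2 h3
    refine Prod.ext h3 ?_
    unfold Inc at h1 h2
    rw [← h1, ← h2, h3]
  have h1 : (E.filter (fun z => ¬ ∃ z' ∈ E, z'.2 = z.2 ∧ z.1.1 < z'.1.1)).card ≤ B.card := by
    refine card_le_card_of_injOn (fun z => z.2) ?_ ?_
    · intro z hz
      exact (hE z (mem_filter.1 hz).1).2.1
    · rintro ⟨p, l⟩ hz ⟨p', l'⟩ hz' heq
      change l = l' at heq
      subst heq
      obtain ⟨hz1, hn1⟩ := mem_filter.1 hz
      obtain ⟨hz2, hn2⟩ := mem_filter.1 hz'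
      have a1 : ¬ p.1 < p'.1 := fun hh => hn1 ⟨(p', l), hz2, rfl, hh⟩
      have a2 : ¬ p'.1 < p.1 := fun hh => hn2 ⟨(p, l), hz1, rfl, hh⟩
      rw [hsame p p' l (hE _ hz1).2.2.1 (hE _ hz2).2.2.1 (by omega)]
  have h2 : (E.filter (fun z => ¬ ∃ z' ∈ E, z'.2 = z.2 ∧ z'.1.1 < z.1.1)).card ≤ B.card := by
    refine card_le_card_of_injOn (fun z => z.2) ?_ ?_
    · intro z hz
      exact (hE z (mem_filter.1 hz).1).2.1
    · rintro ⟨p, l⟩ hz ⟨p', l'⟩ hz' heq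
      change l = l' at heq
      subst heq
      obtain ⟨hz1, hn1⟩ := mem_filter.1 hz
      obtain ⟨hz2, hn2⟩ := mem_filter.1 hz'
      have a1 : ¬ p'.1 < p.1 := fun hh => hn1 ⟨(p', l), hz2, rfl, hh⟩
      have a2 : ¬ p.1 < p'.1 := fun hh => hn2 ⟨(p, l), hz1, rfl, hh⟩
      rw [hsame p p' l (hE _ hz1).2.2.1 (hE _ hz2).2.2.1 (by omega)]
  have hno : ∀ p l₁ l₂ : ℕ × ℕ, (p, l₁) ∈ E → (p, l₂) ∈ E → l₁.1 < l₂.1 →
      (∃ z' ∈ E, z'.2 = l₁ ∧ p.1 < z'.1.1) → (∃ z' ∈ E, z'.2 = l₂ ∧ z'.1.1 < p.1) → False := by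
    rintro p l₁ l₂ hz1 hz2 hlt ⟨⟨p', l'⟩, hz3, h3, h4⟩ ⟨⟨p'', l''⟩, hz4, h5, h6⟩
    dsimp only at h3 h4 h5 h6
    subst h3
    subst h5
    obtain ⟨_, _, i1, _⟩ := hE _ hz1
    obtain ⟨_, _, i2, _⟩ := hE _ hz2
    obtain ⟨ap', bl1, i3, c3⟩ := hE _ hz3
    obtain ⟨ap'', bl2, i4, c4⟩ := hE _ hz4
    dsimp only at i1 i2 i3 i4 ap' bl1 c3 ap'' bl2 c4
    have b1 : ¬ Ab p' l'' := by
      intro hh
      unfold Pool.Agent.H90.UD.Ab at hh
      unfold Inc at i1 i2 i3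
      zify at *
      nlinarith
    have b2 : ¬ Ab p'' l' := by
      intro hh
      unfold Pool.Agent.H90.UD.Ab at hh
      unfold Inc at i1 i2 i4
      zify at *
      nlinarith
    have c1 := h p' ap' l'' bl2 b1
    have c2 := h p'' ap'' l' bl1 b2
    linarith
  have h3 : (E.filter (fun z => (∃ z' ∈ E, z'.2 = z.2 ∧ z.1.1 < z'.1.1) ∧
      ∃ z' ∈ E, z'.2 = z.2 ∧ z'.1.1 < z.1.1)).card ≤ A.card := by
    refine card_le_card_of_injOn (fun z => z.1) ?_ ?_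
    · intro z hz
      exact (hE z (mem_filter.1 hz).1).1
    · rintro ⟨p, l⟩ hz ⟨p', l'⟩ hz' heq
      change p = p' at heq
      subst heq
      obtain ⟨hz1, hr1, hl1⟩ := mem_filter.1 hz
      obtain ⟨hz2, hr2, hl2⟩ := mem_filter.1 hz'
      have a1 : ¬ l.1 < l'.1 := fun hh => hno p l l' hz1 hz2 hh hr1 hl2
      have a2 : ¬ l'.1 < l.1 := fun hh => hno p l' l hz2 hz1 hh hr2 hl1
      have a3 : l.1 = l'.1 := by omega
      have i1 := (hE _ hz1).2.2.1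
      have i2 := (hE _ hz2).2.2.1
      change l.1 * p.1 + l.2 = p.2 at i1
      change l'.1 * p.1 + l'.2 = p.2 at i2
      have a4 : l = l' := by
        refine Prod.ext a3 ?_
        rw [a3] at i1
        omega
      rw [a4]
  have h4 : E.card ≤ (E.filter (fun z => ¬ ∃ z' ∈ E, z'.2 = z.2 ∧ z.1.1 < z'.1.1)).card +
      (E.filter (fun z => ¬ ∃ z' ∈ E, z'.2 = z.2 ∧ z'.1.1 < z.1.1)).card +
      (E.filter (fun z => (∃ z' ∈ E, z'.2 = z.2 ∧ z.1.1 < z'.1.1) ∧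
      ∃ z' ∈ E, z'.2 = z.2 ∧ z'.1.1 < z.1.1)).card := by
    refine le_trans (card_le_card ?_) (le_trans (card_union_le _ _)
      (Nat.add_le_add_right (card_union_le _ _) _))
    intro z hz
    by_cases c1 : ∃ z' ∈ E, z'.2 = z.2 ∧ z.1.1 < z'.1.1
    · by_cases c2 : ∃ z' ∈ E, z'.2 = z.2 ∧ z'.1.1 < z.1.1
      · exact mem_union_right _ (mem_filter.2 ⟨hz, c1, c2⟩)
      · exact mem_union_left _ (mem_union_right _ (mem_filter.2 ⟨hz, c2⟩))
    · exact mem_union_left _ (mem_union_left _ (mem_filter.2 ⟨hz, c1⟩))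
  omega

/-- a conjunction of `t` comparisons -/
theorem conj_block (A B : Finset (ℕ × ℕ)) (t : ℕ) (f g : Fin t → ℕ × ℕ → ℝ)
    (h : ∀ p ∈ A, ∀ l ∈ B, (¬ Ab p l ↔ ∀ k, f k p < g k l)) :
    NI A B ≤ t * (A.card + 2 * B.card) := by
  classical
  rw [NI_eq]
  have h1 : ((A ×ˢ B).filter (fun z => Inc z.1 z.2)) ⊆ (univ : Finset (Fin t)).biUnion
      fun k => (A ×ˢ B).filter (fun z => Inc z.1 z.2 ∧ ¬ f k z.1 < g k z.2) := by
    intro z hz
    obtain ⟨hz1, hi⟩ := mem_filter.1 hz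
    obtain ⟨hp, hl⟩ := mem_product.1 hz1
    have h2 : Ab z.1 z.2 := le_of_eq hi
    have h3 : ¬ ∀ k, f k z.1 < g k z.2 := fun hh => (h _ hp _ hl).2 hh h2
    push Not at h3
    obtain ⟨k, hk⟩ := h3
    rw [mem_biUnion]
    exact ⟨k, mem_univ k, mem_filter.2 ⟨hz1, hi, not_lt.2 hk⟩⟩
  refine (card_le_card h1).trans (card_biUnion_le.trans ?_)
  calc ∑ k : Fin t, ((A ×ˢ B).filter (fun z => Inc z.1 z.2 ∧ ¬ f k z.1 < g k z.2)).card
      ≤ ∑ k : Fin t, (A.card + 2 * B.card) := by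
        refine sum_le_sum fun k _ => conj_one A B (f k) (g k)
          (fun p hp l hl hn => (h p hp l hl).1 hn k) _ ?_
        intro z hz
        obtain ⟨hz1, hi, hc⟩ := mem_filter.1 hz
        obtain ⟨hp, hl⟩ := mem_product.1 hz1
        exact ⟨hp, hl, hi, hc⟩
    _ = t * (A.card + 2 * B.card) := by rw [sum_const, card_univ, Fintype.card_fin, smul_eq_mul]

/-- On `A × B` the relation `dist a b < 1` is equivalent to a conjunction of `t` comparisons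
`f k a < g k b` of real functions of one point each. -/
def Conj (t : ℕ) (A B : Finset Plane) : Prop :=
  ∃ f g : Fin t → Plane → ℝ, ∀ a ∈ A, ∀ b ∈ B, (dist a b < 1 ↔ ∀ k, f k a < g k b)

theorem conj_pl {k t : ℕ} {A B : Finset Plane} (h : Conj t A B) {X Y : Finset (ℕ × ℕ)}
    (hX : X ⊆ pts k) (hY : Y ⊆ lns k) (hXA : ∀ p ∈ X, ep k p ∈ A) (hYB : ∀ l ∈ Y, el k l ∈ B) :
    NI X Y ≤ t * (X.card + 2 * Y.card) := by
  obtain ⟨f, g, hfg⟩ := h
  refine conj_block X Y t (fun j p => f j (ep k p)) (fun j l => g j (el k l)) ?_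
  intro p hp l hl
  rw [← lt_iff (hX hp) (hY hl)]
  exact hfg _ (hXA p hp) _ (hYB l hl)

theorem conj_lp {k t : ℕ} {A B : Finset Plane} (h : Conj t A B) {X Y : Finset (ℕ × ℕ)}
    (hX : X ⊆ pts k) (hY : Y ⊆ lns k) (hXB : ∀ p ∈ X, ep k p ∈ B) (hYA : ∀ l ∈ Y, el k l ∈ A) :
    NI X Y ≤ t * (X.card + 2 * Y.card) := by
  obtain ⟨f, g, hfg⟩ := h
  refine conj_block X Y t (fun j p => - g j (ep k p)) (fun j l => - f j (el k l)) ?_
  intro p hp l hl
  rw [← lt_iff (hX hp) (hY hl), dist_comm]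
  refine (hfg _ (hYA l hl) _ (hXB p hp)).trans ?_
  simp only [neg_lt_neg_iff]

/-- the main count -/
theorem countC {k e m : ℕ} (hk : 0 < k) (t : Fin m → ℕ) (A B : Fin m → Finset Plane)
    (hE : ∀ i, Conj (t i) (A i) (B i))
    (hc : ∀ p ∈ pset k e, ∀ q ∈ pset k e, p ≠ q → ∃ i, (p ∈ A i ∧ q ∈ B i) ∨ (q ∈ A i ∧ p ∈ B i)) :
    k ^ 4 ≤ 2 * ∑ i, t i * ((A i).card + (B i).card) := by
  classical
  set A1 : Fin m → Finset (ℕ × ℕ) := fun i => (pts k).filter (fun p => ep k p ∈ A i) with hA1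
  set A2 : Fin m → Finset (ℕ × ℕ) := fun i => (pts k).filter (fun p => ep k p ∈ B i) with hA2
  set B1 : Fin m → Finset (ℕ × ℕ) := fun i => (lns k).filter (fun p => el k p ∈ B i) with hB1
  set B2 : Fin m → Finset (ℕ × ℕ) := fun i => (lns k).filter (fun p => el k p ∈ A i) with hB2
  have s1 : ∀ i, A1 i ⊆ pts k := fun i => filter_subset _ _
  have s2 : ∀ i, A2 i ⊆ pts k := fun i => filter_subset _ _
  have s3 : ∀ i, B1 i ⊆ lns k := fun i => filter_subset _ _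
  have s4 : ∀ i, B2 i ⊆ lns k := fun i => filter_subset _ _
  have m1 : ∀ i, ∀ p ∈ A1 i, ep k p ∈ A i := fun i p hp => (mem_filter.1 hp).2
  have m2 : ∀ i, ∀ p ∈ A2 i, ep k p ∈ B i := fun i p hp => (mem_filter.1 hp).2
  have m3 : ∀ i, ∀ p ∈ B1 i, el k p ∈ B i := fun i p hp => (mem_filter.1 hp).2
  have m4 : ∀ i, ∀ p ∈ B2 i, el k p ∈ A i := fun i p hp => (mem_filter.1 hp).2
  have h1 : NI (pts k) (lns k) ≤ ∑ i, (NI (A1 i) (B1 i) + NI (A2 i) (B2 i)) := by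
    rw [NI_eq]
    have h2 : (pts k ×ˢ lns k).filter (fun z => Inc z.1 z.2) ⊆
        univ.biUnion (fun i : Fin m => ((A1 i ×ˢ B1 i).filter (fun z => Inc z.1 z.2)) ∪
          ((A2 i ×ˢ B2 i).filter (fun z => Inc z.1 z.2))) := by
      rintro ⟨p, l⟩ hz
      obtain ⟨hz1, hi⟩ := mem_filter.1 hz
      obtain ⟨hp, hl⟩ := mem_product.1 hz1
      obtain ⟨i, hi'⟩ := hc (ep k p) (mem_pset.2 (Or.inl (Or.inl ⟨p, hp, rfl⟩)))
        (el k l) (mem_pset.2 (Or.inl (Or.inr ⟨l, hl, rfl⟩))) (ep_ne_el hp hl)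
      rw [mem_biUnion]
      refine ⟨i, mem_univ i, ?_⟩
      rcases hi' with ⟨a1, a2⟩ | ⟨a1, a2⟩
      · exact mem_union_left _ (mem_filter.2 ⟨mem_product.2 ⟨mem_filter.2 ⟨hp, a1⟩,
          mem_filter.2 ⟨hl, a2⟩⟩, hi⟩)
      · exact mem_union_right _ (mem_filter.2 ⟨mem_product.2 ⟨mem_filter.2 ⟨hp, a2⟩,
          mem_filter.2 ⟨hl, a1⟩⟩, hi⟩)
    refine (card_le_card h2).trans (card_biUnion_le.trans (sum_le_sum fun i _ => ?_))
    rw [NI_eq, NI_eq]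
    exact card_union_le _ _
  have h2 : ∀ i, NI (A1 i) (B1 i) + NI (A2 i) (B2 i) ≤
      2 * (t i * ((A i).card + (B i).card)) := by
    intro i
    have b1 := conj_pl (hE i) (s1 i) (s3 i) (m1 i) (m3 i)
    have b2 := conj_lp (hE i) (s2 i) (s4 i) (m2 i) (m4 i)
    have c1 := two_le hk (A i) (s1 i) (s4 i) (m1 i) (m4 i)
    have c2 := two_le hk (B i) (s2 i) (s3 i) (m2 i) (m3 i)
    calc _ ≤ t i * ((A1 i).card + 2 * (B1 i).card) + t i * ((A2 i).card + 2 * (B2 i).card) :=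
          Nat.add_le_add b1 b2
      _ ≤ t i * (2 * ((A1 i).card + (B2 i).card) + 2 * ((A2 i).card + (B1 i).card)) := by
          rw [← Nat.mul_add]
          exact Nat.mul_le_mul_left _ (by omega)
      _ ≤ t i * (2 * (A i).card + 2 * (B i).card) := Nat.mul_le_mul_left _ (by omega)
      _ = 2 * (t i * ((A i).card + (B i).card)) := by ring
  calc k ^ 4 ≤ NI (pts k) (lns k) := many k
    _ ≤ _ := h1
    _ ≤ ∑ i, 2 * (t i * ((A i).card + (B i).card)) := sum_le_sum fun i _ => h2 i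
    _ = 2 * ∑ i, t i * ((A i).card + (B i).card) := (mul_sum _ _ _).symm

theorem finalC {n m : ℕ} (hn : 3 ≤ n) (t : Fin m → ℕ) (A B : Fin m → Finset Plane)
    (hE : ∀ i, Conj (t i) (A i) (B i))
    (hc : ∀ p ∈ conf n, ∀ q ∈ conf n, p ≠ q → ∃ i, (p ∈ A i ∧ q ∈ B i) ∨ (q ∈ A i ∧ p ∈ B i)) :
    (n : ℝ) ^ (4 / 3 : ℝ) ≤ 162 * ∑ i, (t i : ℝ) * (((A i).card : ℝ) + ((B i).card : ℝ)) := by
  have h1 := countC (side_pos hn) t A B hE hc
  have h2 : ((side n : ℝ)) ^ 4 ≤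
      2 * ∑ i, (t i : ℝ) * (((A i).card : ℝ) + ((B i).card : ℝ)) := by exact_mod_cast h1
  have h7 := rpow_le hn
  linarith

end Pool.Agent.H31.UC
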